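import Mathlib
import Pool.Agent.Y63.NV.Stm4
import Pool.Agent.Y77.NV.DGN2

/-!
# The labelled decomposition of the Brauer quotient over the complements
-/

open scoped Classical

noncomputable section

namespace Pool.Agent.Y604.NV

open Pool.Agent.Y63.NV Pool.Agent.Y77.NV

section general

variable {F : Type} [Field F] {V W : Type} [AddCommGroup V] [Module F V] [AddCommGroup W]
  [Module F W]

/-- powers of `A - c` and of `B - c` are intertwined on an invariant subspace -/
theorem pow_intertwine (T : V →ₗ[F] W) (A : Module.End F V) (B : Module.End F W)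
    (S : Submodule F V) (hS : ∀ v ∈ S, A v ∈ S) (h : ∀ v ∈ S, T (A v) = B (T v)) (c : F) (k : ℕ) :
    ∀ v ∈ S, ((A - c • (1 : Module.End F V)) ^ k) v ∈ S ∧
      T (((A - c • (1 : Module.End F V)) ^ k) v) = ((B - c • (1 : Module.End F W)) ^ k) (T v) := by
  induction k with
  | zero =>
    intro v hv
    rw [pow_zero, pow_zero]
    exact ⟨hv, rfl⟩
  | succ k ih =>
    intro v hv
    have h1 : (A - c • (1 : Module.End F V)) v ∈ S := by
      rw [LinearMap.sub_apply, LinearMap.smul_apply, Module.End.one_apply]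
      exact S.sub_mem (hS v hv) (S.smul_mem c hv)
    have h2 : T ((A - c • (1 : Module.End F V)) v) = (B - c • (1 : Module.End F W)) (T v) := by
      rw [LinearMap.sub_apply, LinearMap.smul_apply, Module.End.one_apply, LinearMap.sub_apply,
        LinearMap.smul_apply, Module.End.one_apply, map_sub, map_smul, h v hv]
    obtain ⟨h3, h4⟩ := ih _ h1
    rw [pow_succ, pow_succ, Module.End.mul_apply, Module.End.mul_apply]
    exact ⟨h3, by rw [h4, h2]⟩

/-- maximal generalised eigenspaces and linear equivalences -/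
theorem mem_maxGen_equiv (T : V ≃ₗ[F] W) (A : Module.End F V) (B : Module.End F W)
    (h : ∀ v, T (A v) = B (T v)) (c : F) (v : V) :
    v ∈ A.maxGenEigenspace c ↔ T v ∈ B.maxGenEigenspace c := by
  rw [Module.End.mem_maxGenEigenspace, Module.End.mem_maxGenEigenspace]
  refine exists_congr fun k => ?_
  have h1 := (pow_intertwine (T : V →ₗ[F] W) A B ⊤ (fun _ _ => trivial) (fun v _ => h v) c k v
    trivial).2
  have h2 : ((B - c • (1 : Module.End F W)) ^ k) (T v) =
      T (((A - c • (1 : Module.End F V)) ^ k) v) := h1.symm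
  rw [h2, map_eq_zero_iff T T.injective]

theorem pow_zero_mono (A : Module.End F V) {k l : ℕ} (hkl : k ≤ l) {v : V}
    (h : (A ^ k) v = 0) : (A ^ l) v = 0 := by
  obtain ⟨m, rfl⟩ := Nat.exists_eq_add_of_le hkl
  rw [add_comm, pow_add, Module.End.mul_apply, h, map_zero]

end general

theorem Cop_apply (p : ℕ) {F Y : Type} [Field F] [Group Y] [Finite Y] (X : Subgroup Y)
    (z θ : Y → F) : Cop p X z θ = prod0 p X z θ := rfl

section transport

variable {p : ℕ} {F : Type} [Field F] {K K' : Type} [Group K] [Group K'] [Finite K] [Finite K']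

theorem dzdL_congr (e : K ≃* K') (z : K' → F) (c : F) :
    dzdL p (⊤ : Subgroup K) (fun x => z (e x)) c = dzdL p (⊤ : Subgroup K') z c := by
  unfold dzdL
  let T : (K' → F) ≃ₗ[F] (K → F) := LinearEquiv.funCongrLeft F F e.toEquiv
  have hT : ∀ f : K' → F, T f = fun x => f (e x) := fun f => rfl
  have h : {h : K → F | ∃ f ∈ VS (F := F) (E0 p (⊤ : Subgroup K)) ⊤,
      ∃ g ∈ VS (F := F) (E0 p (⊤ : Subgroup K)) ⊤, h = prod0 p ⊤ f g} =
      (T : (K' → F) →ₗ[F] (K → F)) '' {h : K' → F | ∃ f ∈ VS (F := F) (E0 p (⊤ : Subgroup K')) ⊤,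
      ∃ g ∈ VS (F := F) (E0 p (⊤ : Subgroup K')) ⊤, h = prod0 p ⊤ f g} := by
    ext h
    constructor
    · rintro ⟨f, hf, g, hg, rfl⟩
      have hf' : f = fun x => (fun y => f (e.symm y)) (e x) := by
        funext x
        exact congrArg f (e.symm_apply_apply x).symm
      have hg' : g = fun x => (fun y => g (e.symm y)) (e x) := by
        funext x
        exact congrArg g (e.symm_apply_apply x).symm
      refine ⟨prod0 p ⊤ (fun y => f (e.symm y)) (fun y => g (e.symm y)),
        ⟨_, (VS_equiv e _).2 (hf' ▸ hf), _, (VS_equiv e _).2 (hg' ▸ hg), rfl⟩, ?_⟩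
      change T _ = _
      rw [hT, prod0_equiv e, ← hf', ← hg']
    · rintro ⟨_, ⟨f, hf, g, hg, rfl⟩, rfl⟩
      refine ⟨_, (VS_equiv e f).1 hf, _, (VS_equiv e g).1 hg, ?_⟩
      change T _ = _
      rw [hT, prod0_equiv e]
  have h2 : (Cop p (⊤ : Subgroup K) (fun x => z (e x))).maxGenEigenspace c =
      ((Cop p (⊤ : Subgroup K') z).maxGenEigenspace c).map (T : (K' → F) →ₗ[F] (K → F)) := by
    have h3 : ∀ v : K' → F, v ∈ (Cop p (⊤ : Subgroup K') z).maxGenEigenspace c ↔
        T v ∈ (Cop p (⊤ : Subgroup K) (fun x => z (e x))).maxGenEigenspace c := by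
      refine mem_maxGen_equiv T _ _ (fun v => ?_) c
      rw [Cop_apply, Cop_apply, hT, hT, prod0_equiv e]
    ext v
    rw [Submodule.mem_map]
    constructor
    · intro hv
      refine ⟨T.symm v, (h3 _).2 ?_, T.apply_symm_apply v⟩
      rw [T.apply_symm_apply]
      exact hv
    · rintro ⟨w, hw, rfl⟩
      exact (h3 w).1 hw
  rw [h, ← Submodule.map_span, h2, ← Submodule.map_inf _ T.injective]
  exact LinearEquiv.finrank_map_eq T _

end transport

section main

variable {p : ℕ} [Fact p.Prime] {Y : Type} [Group Y] [Finite Y] {X : Subgroup Y}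
  {F : Type} [Field F] [CharP F p]

/-- restriction to the centraliser of a complement is compatible with the operators -/
theorem rs_prodz [hX : X.Normal] {R : Subgroup Y} (h : Cmp p X R) {f g : Y → F}
    (hf : InZ X f) (hg : g ∈ VS (F := F) (E0 p X) ⊤) :
    rs F (KR X R) (prod0 p X f g) = prod0 p ⊤ (rs F (KR X R) f) (rs F (KR X R) g) := by
  funext x
  rw [rs_apply]
  unfold prod0
  by_cases hx0 : x ∈ E0 p (⊤ : Subgroup (KR X R))
  swap
  · rw [if_neg hx0, if_neg fun h1 => hx0 ((mem_E0 h x).2 h1)]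
  rw [if_pos hx0, if_pos ((mem_E0 h x).1 hx0)]
  have : Fintype Y := Fintype.ofFinite Y
  have hx := (mem_KR.1 x.2).2
  let K2 : Y → F := fun y => if y ∈ KR X R then f y * g (y⁻¹ * x) else 0
  have h1 : conv (rs F (KR X R) f) (rs F (KR X R) g) x = ∑ y : Y, K2 y := by
    unfold conv
    rw [finsum_eq_sum_of_fintype]
    have h3 : ∑ y : Y, K2 y = ∑ y ∈ Finset.univ.filter (fun y => y ∈ KR X R), K2 y := by
      refine (Finset.sum_filter_of_ne fun y _ hy => ?_).symm
      by_contra h4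
      exact hy (if_neg h4)
    rw [h3, Finset.sum_subtype (p := fun y => y ∈ KR X R) _ (fun y => by simp) K2]
    refine Finset.sum_congr rfl fun y _ => ?_
    exact (if_pos y.2).symm
  rw [h1]
  unfold conv
  rw [finsum_eq_sum_of_fintype, ← sub_eq_zero, ← Finset.sum_sub_distrib]
  refine psum h.pg (fun r y => r * y * (r : Y)⁻¹) (fun y => by simp)
    (fun r s y => by simp [mul_assoc]) _ ?_ ?_
  · intro r y
    have e1 : f (r * y * (r : Y)⁻¹) * g ((r * y * (r : Y)⁻¹)⁻¹ * x) = f y * g (y⁻¹ * x) := by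
      have e2 : ((r : Y) * y * (r : Y)⁻¹)⁻¹ * x = r * (y⁻¹ * x) * (r : Y)⁻¹ := by
        have e3 : (r : Y)⁻¹ * x = x * (r : Y)⁻¹ := hx _ (R.inv_mem r.2)
        calc ((r : Y) * y * (r : Y)⁻¹)⁻¹ * x = r * y⁻¹ * ((r : Y)⁻¹ * x) := by group
          _ = r * (y⁻¹ * x) * (r : Y)⁻¹ := by rw [e3]; group
      rw [e2, hf.conj r, hg.2 r trivial]
    have e4 : (r : Y) * y * (r : Y)⁻¹ ∈ KR X R ↔ y ∈ KR X R := by
      constructor
      · intro hy
        have h5 := (mem_KR.1 hy).2 r r.2
        have h6 : (r : Y) * y * (r : Y)⁻¹ = y := by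
          have h7 : (r : Y) * (r * y * (r : Y)⁻¹) = r * y := by
            rw [h5]
            group
          exact mul_left_cancel h7
        rwa [h6] at hy
      · intro hy
        have h5 : (r : Y) * y * (r : Y)⁻¹ = y := by
          rw [(mem_KR.1 hy).2 r r.2]
          group
        rwa [h5]
    have e5 : K2 (r * y * (r : Y)⁻¹) = K2 y := by
      by_cases hy : y ∈ KR X R
      · simp only [K2, if_pos hy, if_pos (e4.2 hy), e1]
      · simp only [K2, if_neg hy, if_neg (fun h7 => hy (e4.1 h7))]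
    rw [e1, e5]
  · intro y hy
    by_cases hyX : y ∈ X
    · have h5 : y ∈ KR X R := mem_KR.2 ⟨hyX, fun r hr =>
        mul_inv_eq_iff_eq_mul.1 (hy ⟨r, hr⟩)⟩
      simp only [K2, if_pos h5, sub_self]
    · have h5 : ¬ y ∈ KR X R := fun h6 => hyX (mem_KR.1 h6).1
      have h6 : f y = 0 := hf.supp y hyX
      simp only [K2, if_neg h5, h6, zero_mul, sub_self]

theorem prodz_VS [hX : X.Normal] {f g : Y → F} (hf : InZ X f)
    (hg : g ∈ VS (F := F) (E0 p X) ⊤) : prod0 p X f g ∈ VS (F := F) (E0 p X) ⊤ := by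
  refine ⟨fun x hx => if_neg hx, fun j _ x => ?_⟩
  have h1 : conv f g (j * x * j⁻¹) = conv f g x := by
    unfold conv
    rw [← finsum_comp_equiv (MulAut.conj j).toEquiv]
    refine finsum_congr fun y => ?_
    change f (j * y * j⁻¹) * g ((j * y * j⁻¹)⁻¹ * (j * x * j⁻¹)) = f y * g (y⁻¹ * x)
    have h2 : (j * y * j⁻¹)⁻¹ * (j * x * j⁻¹) = j * (y⁻¹ * x) * j⁻¹ := by group
    rw [h2, hf.conj j, hg.2 j trivial]
  unfold prod0
  by_cases hx : x ∈ E0 p X
  · rw [if_pos hx, if_pos (E0_conj hx j), h1]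
  · have hx' : ¬ j * x * j⁻¹ ∈ E0 p X := fun h => hx (by
      have h2 := E0_conj h j⁻¹
      have h3 : j⁻¹ * (j * x * j⁻¹) * j⁻¹⁻¹ = x := by group
      rwa [h3] at h2)
    rw [if_neg hx, if_neg hx']

/-- a class function on `E0` which vanishes on the centralisers of all complements is zero -/
theorem VS_eq_zero [hX : X.Normal] (hq : IsPGroup p (Y ⧸ X)) {v : Y → F}
    (hvV : v ∈ VS (F := F) (E0 p X) ⊤)
    (hv : ∀ c : Quotient (stR (p := p) (X := X)), rs F (KR X c.out.1) v = 0) : v = 0 := by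
  funext x
  change v x = 0
  by_cases hx : x ∈ E0 p X
  · obtain ⟨R, hR, hxR⟩ := exists_cmp hq hx
    obtain ⟨g, hg⟩ : (stR (p := p) (X := X)).r
        (Quotient.mk (stR (p := p) (X := X)) ⟨R, hR⟩).out ⟨R, hR⟩ :=
      Quotient.mk_out (s := stR (p := p) (X := X)) (⟨R, hR⟩ : CR p X)
    have hg' : cjg g⁻¹ R = (Quotient.mk (stR (p := p) (X := X)) ⟨R, hR⟩).out.1 := by
      change cjg g _ = R at hg
      conv_lhs => rw [← hg]
      rw [← cjg_mul, inv_mul_cancel, cjg_one]
    have h1 := KR_cjg hxR g⁻¹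
    rw [hg'] at h1
    have h2 := congrFun (hv (Quotient.mk (stR (p := p) (X := X)) ⟨R, hR⟩)) ⟨_, h1⟩
    have h3 : v (g⁻¹ * x * g⁻¹⁻¹) = 0 := h2
    rwa [hvV.2 g⁻¹ trivial] at h3
  · exact hvV.1 x hx

/-- the generalised eigenspaces are detected by the restrictions -/
theorem mem_gen_iff [hX : X.Normal] (hq : IsPGroup p (Y ⧸ X))
    [Fintype (Quotient (stR (p := p) (X := X)))] {z : Y → F} (hz : InZ X z) (a : F) {v : Y → F}
    (hvV : v ∈ VS (F := F) (E0 p X) ⊤) :
    v ∈ (Cop p X z).maxGenEigenspace a ↔ ∀ c : Quotient (stR (p := p) (X := X)),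
      rs F (KR X c.out.1) v ∈
        (Cop p (⊤ : Subgroup (KR X c.out.1)) (rs F (KR X c.out.1) z)).maxGenEigenspace a := by
  have hS : ∀ v ∈ VS (F := F) (E0 p X) ⊤, Cop p X z v ∈ VS (F := F) (E0 p X) ⊤ := by
    intro v hv
    rw [Cop_apply]
    exact prodz_VS hz hv
  have hint : ∀ c : Quotient (stR (p := p) (X := X)), ∀ v ∈ VS (F := F) (E0 p X) ⊤,
      rs F (KR X c.out.1) (Cop p X z v) =
        Cop p (⊤ : Subgroup (KR X c.out.1)) (rs F (KR X c.out.1) z) (rs F (KR X c.out.1) v) := by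
    intro c v hv
    rw [Cop_apply, Cop_apply]
    exact rs_prodz c.out.2 hz hv
  constructor
  · intro h c
    rw [Module.End.mem_maxGenEigenspace] at h ⊢
    obtain ⟨k, hk⟩ := h
    refine ⟨k, ?_⟩
    rw [← (pow_intertwine (rs F (KR X c.out.1)) _ _ _ hS (hint c) a k v hvV).2, hk, map_zero]
  · intro h
    have h' : ∀ c : Quotient (stR (p := p) (X := X)), ∃ k : ℕ,
        ((Cop p (⊤ : Subgroup (KR X c.out.1)) (rs F (KR X c.out.1) z) -
          a • (1 : Module.End F (KR X c.out.1 → F))) ^ k) (rs F (KR X c.out.1) v) = 0 :=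
      fun c => (Module.End.mem_maxGenEigenspace _ _ _).1 (h c)
    choose k hk using h'
    rw [Module.End.mem_maxGenEigenspace]
    refine ⟨Finset.univ.sup k, ?_⟩
    refine VS_eq_zero hq (pow_intertwine (LinearMap.id : (Y → F) →ₗ[F] (Y → F)) (Cop p X z)
      (Cop p X z) _ hS (fun _ _ => rfl) a _ v hvV).1 fun c => ?_
    rw [(pow_intertwine (rs F (KR X c.out.1)) _ _ _ hS (hint c) a _ v hvV).2]
    exact pow_zero_mono _ (Finset.le_sup (f := k) (Finset.mem_univ c)) (hk c)

/-- the labelled decomposition -/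
theorem decL [hX : X.Normal] (hq : IsPGroup p (Y ⧸ X))
    [Fintype (Quotient (stR (p := p) (X := X)))] {z : Y → F} (hz : InZ X z) (a : F) :
    dzdL p X z a = ∑ c : Quotient (stR (p := p) (X := X)),
      dzdL p (⊤ : Subgroup (KR X c.out.1)) (fun x => z x) a := by
  set D0 : Submodule F (Y → F) := Submodule.span F {h : Y → F | ∃ f ∈ VS (F := F) (E0 p X) ⊤,
    ∃ g ∈ VS (F := F) (E0 p X) ⊤, h = prod0 p X f g} with hD0
  let Dc0 : ∀ c : Quotient (stR (p := p) (X := X)), Submodule F (KR X c.out.1 → F) := fun c =>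
    Submodule.span F {h : KR X c.out.1 → F |
      ∃ f ∈ VS (F := F) (E0 p (⊤ : Subgroup (KR X c.out.1))) ⊤,
      ∃ g ∈ VS (F := F) (E0 p (⊤ : Subgroup (KR X c.out.1))) ⊤, h = prod0 p ⊤ f g}
  set D : Submodule F (Y → F) := D0 ⊓ (Cop p X z).maxGenEigenspace a with hD
  let Dc : ∀ c : Quotient (stR (p := p) (X := X)), Submodule F (KR X c.out.1 → F) := fun c =>
    Dc0 c ⊓ (Cop p (⊤ : Subgroup (KR X c.out.1)) (rs F (KR X c.out.1) z)).maxGenEigenspace a
  have hDV0 : D0 ≤ VS (F := F) (E0 p X) ⊤ := by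
    rw [hD0, Submodule.span_le]
    rintro _ ⟨f, hf, g, hg, rfl⟩
    exact prod0_VS hf hg
  have hres0 : ∀ c, ∀ v ∈ D0, rs F (KR X c.out.1) v ∈ Dc0 c := by
    intro c
    have h1 : D0 ≤ (Dc0 c).comap (rs F (KR X c.out.1)) := by
      rw [hD0, Submodule.span_le]
      rintro _ ⟨f, hf, g, hg, rfl⟩
      change rs F (KR X c.out.1) _ ∈ Dc0 c
      rw [rs_prod0 c.out.2 hf hg]
      exact Submodule.subset_span ⟨_, rs_VS c.out.2 hf, _, rs_VS c.out.2 hg, rfl⟩
    exact h1
  have hres : ∀ c, ∀ v ∈ D, rs F (KR X c.out.1) v ∈ Dc c := by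
    intro c v hv
    exact ⟨hres0 c v hv.1, (mem_gen_iff hq hz a (hDV0 hv.1)).1 hv.2 c⟩
  let L : D →ₗ[F] ∀ c, Dc c := LinearMap.pi fun c => (rs F (KR X c.out.1)).restrict (hres c)
  have hL : ∀ (v : D) c, ((L v c : Dc c) : KR X c.out.1 → F) = rs F (KR X c.out.1) v :=
    fun v c => rfl
  have hinj : Function.Injective L := by
    rw [injective_iff_map_eq_zero]
    intro v hv
    refine Subtype.ext (VS_eq_zero hq (hDV0 v.2.1) fun c => ?_)
    rw [← hL, hv]
    rfl
  have hlift : ∀ c, ∀ d ∈ Dc0 c, ∃ v ∈ D0, rs F (KR X c.out.1) v = d ∧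
      ∀ c', c' ≠ c → rs F (KR X c'.out.1) v = 0 := by
    intro c d hd
    refine Submodule.span_induction (p := fun d _ => ∃ v ∈ D0, rs F (KR X c.out.1) v = d ∧
      ∀ c', c' ≠ c → rs F (KR X c'.out.1) v = 0) ?_ ?_ ?_ ?_ hd
    · rintro _ ⟨θ, hθ, η, hη, rfl⟩
      obtain ⟨f, hf, hf1, hf2⟩ := extend c.out.2 hθ
      obtain ⟨g, hg, hg1, hg2⟩ := extend c.out.2 hη
      refine ⟨prod0 p X f g, Submodule.subset_span ⟨f, hf, g, hg, rfl⟩, ?_, fun c' hc' => ?_⟩
      · rw [rs_prod0 c.out.2 hf hg, hf1, hg1]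
      · have h1 : ∀ j : Y, cjg j c'.out.1 ≠ c.out.1 := by
          intro j hj
          apply hc'
          have h2 : Quotient.mk (stR (p := p) (X := X)) c'.out =
              Quotient.mk (stR (p := p) (X := X)) c.out := Quotient.sound ⟨j, hj⟩
          rwa [Quotient.out_eq, Quotient.out_eq] at h2
        rw [rs_prod0 c'.out.2 hf hg, hf2 _ c'.out.2 h1]
        funext x
        unfold prod0 conv
        simp
    · exact ⟨0, D0.zero_mem, map_zero _, fun _ _ => map_zero _⟩
    · rintro d1 d2 _ _ ⟨v1, hv1, h1, h1'⟩ ⟨v2, hv2, h2, h2'⟩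
      exact ⟨v1 + v2, D0.add_mem hv1 hv2, by rw [map_add, h1, h2],
        fun c' hc' => by rw [map_add, h1' c' hc', h2' c' hc', add_zero]⟩
    · rintro b d1 _ ⟨v1, hv1, h1, h1'⟩
      exact ⟨b • v1, D0.smul_mem b hv1, by rw [map_smul, h1],
        fun c' hc' => by rw [map_smul, h1' c' hc', smul_zero]⟩
  have hsurj : Function.Surjective L := by
    intro d
    choose v hv h1 h2 using fun c => hlift c (d c) (d c).2.1
    have hvD : ∑ c, v c ∈ D0 := D0.sum_mem fun c _ => hv c
    have hvr : ∀ c, rs F (KR X c.out.1) (∑ c, v c) = d c := by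
      intro c
      rw [map_sum, Finset.sum_eq_single c (fun c' _ hc' => h2 c' c (Ne.symm hc'))
        (fun h => absurd (Finset.mem_univ c) h), h1]
    refine ⟨⟨∑ c, v c, hvD, (mem_gen_iff hq hz a (hDV0 hvD)).2 fun c => ?_⟩, ?_⟩
    · rw [hvr c]
      exact (d c).2.2
    · funext c
      refine Subtype.ext ?_
      rw [hL]
      exact hvr c
  have h1 : Module.finrank F D = Module.finrank F (∀ c, Dc c) :=
    (LinearEquiv.ofBijective L ⟨hinj, hsurj⟩).finrank_eq
  rw [Module.finrank_pi_fintype F] at h1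
  exact h1

end main

/-- DGN2L: the labelled Brauer quotient decomposes over the complements -/
theorem dgn2L : S_DGN2L := by
  intro p _ F _ _ Y _ _ X hX z c hq hz
  have : Fintype (CR p X) := Fintype.ofFinite _
  have : Fintype (Quotient (stR (p := p) (X := X))) := Fintype.ofFinite _
  have : Fintype (Subgroup Y) := Fintype.ofFinite _
  let _ : MulAction Y (CR p X) := actR
  have h1 := Pool.Agent.Y63.AWC.orbit_sum (G := Y) (stR (p := p) (X := X)) (by
    intro a b
    constructor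
    · rintro ⟨g, hg⟩
      exact ⟨g, Subtype.ext hg⟩
    · rintro ⟨g, hg⟩
      exact ⟨g, congrArg Subtype.val hg⟩)
    (fun R : CR p X => dzdL p (⊤ : Subgroup (KR X R.1)) (fun x => z x) c) (by
      rintro a b ⟨g, hg⟩
      have h2 := dzdL_congr (p := p) (cjE g a.1) (fun x : KR X (cjg g a.1) => z x) c
      have h3 : (fun x : KR X a.1 => z ((cjE g a.1 x : KR X (cjg g a.1)) : Y)) =
          fun x : KR X a.1 => z x := by
        funext x
        exact hz.conj g x
      rw [h3] at h2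
      change dzdL p (⊤ : Subgroup (KR X a.1)) (fun x => z x) c =
        dzdL p (⊤ : Subgroup (KR X b.1)) (fun x => z x) c
      rw [h2, hg])
  rw [finsum_eq_sum_of_fintype] at h1
  rw [decL hq hz, h1, finsum_eq_sum_of_fintype, ← Finset.sum_filter,
    Finset.sum_subtype (p := fun R : Subgroup Y => Cmp p X R) _ (fun R => by
      rw [Finset.mem_filter, cmp_iff]
      exact ⟨fun h => h.2, fun h => ⟨Finset.mem_univ _, h⟩⟩)
      (fun R => Nat.card (Subgroup.normalizer (R : Set Y)) *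
        dzdL p (⊤ : Subgroup ↥(X ⊓ Subgroup.centralizer (R : Set Y))) (fun x => z x) c)]
  refine Finset.sum_congr rfl fun R _ => ?_
  congr 1
  refine Nat.card_congr (Equiv.subtypeEquivRight fun g => ?_)
  rw [MulAction.mem_stabilizer_iff, Subtype.ext_iff, Subgroup.mem_normalizer_iff]
  change cjg g R.1 = R.1 ↔ _
  constructor
  · intro h3 x
    conv_rhs => rw [← h3]
    rw [mem_cjg]
    have h4 : g⁻¹ * (g * x * g⁻¹) * g = x := by group
    rw [h4]
  · intro h3
    ext x
    rw [mem_cjg, h3]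
    have h4 : g * (g⁻¹ * x * g) * g⁻¹ = x := by group
    rw [h4]

end Pool.Agent.Y604.NV
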