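import Pool.Agent.Y63.NV.Stm8

set_option autoImplicit false

/-!
# Multiplicities of eigenvalues and finite `p`-groups (job NV7-KZLA)
-/

namespace Pool.Agent.Y604.NV

open Pool.Agent.Y63.NV

/-- a finite `p`-group acting linearly in characteristic `p` has a nonzero fixed vector -/
theorem exists_fixed {p : ℕ} [Fact p.Prime] {F : Type} [Field F] [CharP F p] {Z : Type} [Group Z]
    [Finite Z] (hZ : IsPGroup p Z) {M : Type} [AddCommGroup M] [Module F M] [Nontrivial M]
    (ρ : Z →* Module.End F M) : ∃ m : M, m ≠ 0 ∧ ∀ v, ρ v m = m := by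
  obtain ⟨x, hx⟩ := exists_ne (0 : M)
  have hp : ∀ y : M, p • y = 0 := by
    intro y
    rw [← Nat.cast_smul_eq_nsmul F, CharP.cast_eq_zero, zero_smul]
  have _hmod : Module (ZMod p) M := AddCommGroup.zmodModule hp
  obtain ⟨S, hS⟩ : ∃ S : Submodule (ZMod p) M,
    S = Submodule.span (ZMod p) (Set.range fun v : Z => ρ v x) := ⟨_, rfl⟩
  have _hfd : FiniteDimensional (ZMod p) ↥S := by
    rw [hS]
    exact FiniteDimensional.span_of_finite (ZMod p) (Set.finite_range _)
  have _hfin : Finite ↥S := Module.finite_of_finite (ZMod p)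
  have hmem : ∀ (v : Z) (y : M), y ∈ S → ρ v y ∈ S := by
    intro v y hy
    rw [hS] at hy ⊢
    induction hy using Submodule.span_induction with
    | mem y hy =>
      obtain ⟨w, rfl⟩ := hy
      refine Submodule.subset_span ⟨v * w, ?_⟩
      change ρ (v * w) x = ρ v (ρ w x)
      rw [map_mul, Module.End.mul_apply]
    | zero => rw [map_zero]; exact Submodule.zero_mem _
    | add y z _ _ hy hz => rw [map_add]; exact Submodule.add_mem _ hy hz
    | smul a y _ hy =>
      rw [ZMod.map_smul]
      exact Submodule.smul_mem _ a hy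
  have hxS : x ∈ S := by
    rw [hS]
    refine Submodule.subset_span ⟨1, ?_⟩
    change ρ 1 x = x
    rw [map_one, Module.End.one_apply]
  let _ : MulAction Z S :=
    { smul := fun v y => ⟨ρ v y.1, hmem v y.1 y.2⟩
      one_smul := fun y => Subtype.ext (by
        change ρ 1 y.1 = y.1
        rw [map_one, Module.End.one_apply])
      mul_smul := fun v w y => Subtype.ext (by
        change ρ (v * w) y.1 = ρ v (ρ w y.1)
        rw [map_mul, Module.End.mul_apply]) }
  have _hnt : Nontrivial ↥S := ⟨⟨⟨x, hxS⟩, 0, fun h => hx (congrArg Subtype.val h)⟩⟩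
  have hdvd : p ∣ Nat.card S := by
    rw [Module.natCard_eq_pow_finrank (K := ZMod p), Nat.card_zmod]
    exact dvd_pow_self p (Module.finrank_pos (R := ZMod p) (M := S)).ne'
  have h0 : (0 : S) ∈ MulAction.fixedPoints Z S := fun v => Subtype.ext (map_zero (ρ v))
  obtain ⟨b, hb, hne⟩ := hZ.exists_fixed_point_of_prime_dvd_card_of_fixed_point S hdvd h0
  exact ⟨b.1, fun h => hne (Subtype.ext h.symm), fun v => congrArg Subtype.val (hb v)⟩

theorem det_pow {p : ℕ} [Fact p.Prime] {F : Type} [Field F] [CharP F p] {Z : Type} [Group Z]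
    [Fintype Z] (hZ : IsPGroup p Z) {E : Type} [AddCommGroup E] [Module F E]
    [FiniteDimensional F E] (A : Z → Module.End F E) (n : ℕ) :
    ∀ (M : Type) [AddCommGroup M] [Module F M] [FiniteDimensional F M]
    (ρ : Z →* Module.End F M) (B : Module.End F (M →ₗ[F] E)),
    (∀ φ m, B φ m = ∑ v, A v (φ (ρ v m))) → Module.finrank F M = n →
    LinearMap.det B = LinearMap.det (∑ v, A v) ^ n := by
  induction n with
  | zero =>
    intro M _ _ _ ρ B hB hn
    have _h0 : Subsingleton M := Module.finrank_zero_iff.1 hn
    have _h00 : Subsingleton (M →ₗ[F] E) := ⟨fun f g => LinearMap.ext fun m => by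
      rw [Subsingleton.elim m 0, map_zero, map_zero]⟩
    rw [pow_zero]
    have h1 : B = LinearMap.id := Subsingleton.elim _ _
    rw [h1, LinearMap.det_id]
  | succ n ih =>
    intro M _ _ _ ρ B hB hn
    have _h0 : Nontrivial M := Module.nontrivial_of_finrank_pos (R := F) (by omega)
    obtain ⟨m, hm0, hm⟩ := exists_fixed hZ ρ
    let ev : (M →ₗ[F] E) →ₗ[F] E := LinearMap.applyₗ m
    have hevd : ∀ φ, ev φ = φ m := fun φ => rfl
    have hev : Function.Surjective ev := by
      intro e
      obtain ⟨l, hl⟩ : ∃ l : Module.Dual F M, l m ≠ 0 := by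
        by_contra h
        push Not at h
        exact hm0 ((Module.forall_dual_apply_eq_zero_iff F m).1 h)
      refine ⟨l.smulRight ((l m)⁻¹ • e), ?_⟩
      rw [hevd, LinearMap.smulRight_apply, smul_smul, mul_inv_cancel₀ hl, one_smul]
    have hT : ∀ φ, ev (B φ) = (∑ v, A v) (ev φ) := by
      intro φ
      rw [hevd, hevd, hB, LinearMap.sum_apply]
      exact Finset.sum_congr rfl fun v _ => by rw [hm v]
    let W : Submodule F (M →ₗ[F] E) := LinearMap.ker ev
    have hWd : ∀ φ, φ ∈ W ↔ φ m = 0 := fun φ => Iff.rfl
    have hW : W ≤ W.comap B := by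
      intro φ hφ
      have h1 : ev φ = 0 := hφ
      change ev (B φ) = 0
      rw [hT, h1, map_zero]
    rw [LinearMap.det_eq_det_mul_det W B hW, pow_succ]
    congr 1
    · -- the kernel
      let S : Submodule F M := Submodule.span F {m}
      have hS : ∀ v, S ≤ S.comap (ρ v) := by
        intro v
        refine (Submodule.span_singleton_le_iff_mem m _).2 ?_
        change ρ v m ∈ S
        rw [hm v]
        exact Submodule.mem_span_singleton_self m
      let ρ' : Z →* Module.End F (M ⧸ S) :=
        { toFun := fun v => S.mapQ S (ρ v) (hS v)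
          map_one' := by
            refine Submodule.linearMap_qext _ (LinearMap.ext fun y => ?_)
            simp
          map_mul' := fun v w => by
            refine Submodule.linearMap_qext _ (LinearMap.ext fun y => ?_)
            simp }
      have hρ' : ∀ v y, ρ' v (S.mkQ y) = S.mkQ (ρ v y) := fun v y => rfl
      let f : ((M ⧸ S) →ₗ[F] E) →ₗ[F] W :=
        LinearMap.codRestrict W (LinearMap.lcomp F E S.mkQ) (fun ψ => by
          rw [hWd]
          change ψ (S.mkQ m) = 0
          have h1 : S.mkQ m = 0 := (Submodule.Quotient.mk_eq_zero S).2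
            (Submodule.mem_span_singleton_self m)
          rw [h1, map_zero])
      have hfd : ∀ ψ y, (f ψ).1 y = ψ (S.mkQ y) := fun ψ y => rfl
      have hf : Function.Bijective f := by
        constructor
        · intro ψ ψ' h
          refine Submodule.linearMap_qext _ (LinearMap.ext fun y => ?_)
          have h1 := LinearMap.congr_fun (congrArg Subtype.val h) y
          exact h1
        · intro φ
          have h1 : S ≤ LinearMap.ker φ.1 := by
            refine (Submodule.span_singleton_le_iff_mem m _).2 ?_
            exact (hWd φ.1).1 φ.2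
          refine ⟨S.liftQ φ.1 h1, Subtype.ext (LinearMap.ext fun y => ?_)⟩
          rw [hfd]
          exact Submodule.liftQ_apply S φ.1 y
      let e : ((M ⧸ S) →ₗ[F] E) ≃ₗ[F] W := LinearEquiv.ofBijective f hf
      have he : ∀ ψ y, (e ψ).1 y = ψ (S.mkQ y) := fun ψ y => rfl
      rw [← LinearMap.det_conj (B.restrict hW) e.symm]
      refine ih (M ⧸ S) ρ' _ ?_ ?_
      · intro ψ x
        obtain ⟨y, rfl⟩ := S.mkQ_surjective x
        have h1 := he (((e.symm : W →ₗ[F] _) ∘ₗ B.restrict hW ∘ₗ
          ((e.symm.symm : _ ≃ₗ[F] _) : _ →ₗ[F] _)) ψ) y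
        rw [← h1]
        have h2 : e (((e.symm : W →ₗ[F] _) ∘ₗ B.restrict hW ∘ₗ
          ((e.symm.symm : _ ≃ₗ[F] _) : _ →ₗ[F] _)) ψ) = B.restrict hW (e ψ) := by
          simp
        rw [h2]
        change B (e ψ).1 y = _
        rw [hB]
        exact Finset.sum_congr rfl fun v _ => by rw [he, hρ']
      · have h1 := Submodule.finrank_quotient_add_finrank S
        have h2 : Module.finrank F S = 1 := finrank_span_singleton hm0
        omega
    · -- the quotient
      rw [← LinearMap.det_conj (W.mapQ W B hW) (ev.quotKerEquivOfSurjective hev)]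
      congr 1
      refine LinearMap.ext fun e => ?_
      obtain ⟨φ, rfl⟩ := hev e
      have h1 : (ev.quotKerEquivOfSurjective hev).symm (ev φ) = W.mkQ φ := by
        rw [LinearEquiv.symm_apply_eq]
        rfl
      rw [LinearMap.comp_apply, LinearMap.comp_apply, LinearEquiv.coe_coe, LinearEquiv.coe_coe, h1,
        ← hT]
      rfl

theorem kzla : S_KZLA := by
  intro p _ F _ _ _ Z _ _ E _ _ _ A K c hZ hK
  classical
  have _hf : Fintype Z := Fintype.ofFinite Z
  have hfin : (∑ᶠ v : Z, A v) = ∑ v, A v := finsum_eq_sum_of_fintype _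
  have hK' : ∀ (θ : Z → E) (w : Z), K θ w = ∑ v : Z, A v (θ (v * w)) := by
    intro θ w
    rw [hK, finsum_eq_sum_of_fintype]
  rw [hfin]
  -- the left regular representation
  let ρ : Z →* Module.End F (Z →₀ F) :=
    { toFun := fun v => Finsupp.lmapDomain F F (fun w => v * w)
      map_one' := by
        refine Finsupp.lhom_ext fun w a => ?_
        simp
      map_mul' := fun u v => by
        refine Finsupp.lhom_ext fun w a => ?_
        simp [mul_assoc] }
  have hρ : ∀ v w (a : F), ρ v (Finsupp.single w a) = Finsupp.single (v * w) a := by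
    intro v w a
    exact Finsupp.mapDomain_single
  let e : (Z → E) ≃ₗ[F] ((Z →₀ F) →ₗ[F] E) := Finsupp.llift E F F Z
  have he : ∀ θ w (a : F), e θ (Finsupp.single w a) = a • θ w := by
    intro θ w a
    change Finsupp.lift E F Z θ (Finsupp.single w a) = _
    rw [Finsupp.lift_apply, Finsupp.sum_single_index]
    rw [zero_smul]
  have hdet : ∀ t : F, LinearMap.det (algebraMap F (Module.End F (Z → E)) t - K) =
      LinearMap.det (algebraMap F (Module.End F E) t - ∑ v, A v) ^ Fintype.card Z := by
    intro t
    let A' : Z → Module.End F E := fun v => (if v = 1 then algebraMap F (Module.End F E) t else 0) - A v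
    have hA' : ∑ v, A' v = algebraMap F (Module.End F E) t - ∑ v, A v := by
      rw [Finset.sum_sub_distrib, Finset.sum_ite_eq' Finset.univ (1 : Z)]
      simp
    rw [← hA', ← LinearMap.det_conj (algebraMap F (Module.End F (Z → E)) t - K) e]
    refine det_pow hZ A' (Fintype.card Z) (Z →₀ F) ρ _ ?_ (Module.finrank_finsupp_self F)
    intro φ m
    obtain ⟨θ, rfl⟩ := e.surjective φ
    have h1 : ((e : (Z → E) →ₗ[F] _) ∘ₗ (algebraMap F (Module.End F (Z → E)) t - K) ∘ₗ
        (e.symm : _ →ₗ[F] _)) (e θ) = e (t • θ - K θ) := by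
      simp [Module.algebraMap_end_apply]
    rw [h1]
    induction m using Finsupp.induction_linear with
    | zero => simp
    | add f g hf hg =>
      rw [map_add, hf, hg, ← Finset.sum_add_distrib]
      exact Finset.sum_congr rfl fun v _ => by rw [map_add, map_add, map_add]
    | single w a =>
      rw [he, Pi.sub_apply, Pi.smul_apply, hK']
      have h2 : ∀ v, A' v (e θ (ρ v (Finsupp.single w a))) =
          a • ((if v = 1 then t • θ w else 0) - A v (θ (v * w))) := by
        intro v
        rw [hρ, he, map_smul]
        congr 1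
        change ((if v = 1 then algebraMap F (Module.End F E) t else 0) - A v) (θ (v * w)) = _
        rw [LinearMap.sub_apply]
        congr 1
        split_ifs with h
        · rw [h, one_mul, Module.algebraMap_end_apply]
        · rfl
      rw [Finset.sum_congr rfl fun v _ => h2 v, ← Finset.smul_sum, Finset.sum_sub_distrib,
        Finset.sum_ite_eq' Finset.univ (1 : Z)]
      simp
  have hchar : K.charpoly = (∑ v, A v).charpoly ^ Fintype.card Z := by
    have _hi : Infinite F := inferInstance
    refine Polynomial.funext fun t => ?_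
    rw [LinearMap.eval_charpoly, hdet, Polynomial.eval_pow, LinearMap.eval_charpoly]
  rw [LinearMap.finrank_maxGenEigenspace_eq, LinearMap.finrank_maxGenEigenspace_eq, hchar,
    ← Polynomial.count_roots, ← Polynomial.count_roots, Polynomial.roots_pow, Multiset.count_nsmul,
    Nat.card_eq_fintype_card]

end Pool.Agent.Y604.NV
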